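import Pool.Agent.V7H55.FP.Defs

set_option autoImplicit false

/-!
# Closed subgroups isomorphic to `ℤ_2`: all quaternion algebras split
-/

namespace Pool.Agent.V7H50.FP

open Pool.Agent.V7H55.FP

section

variable {F K : Type} [Field F] [Field K] [Algebra F K] [IsGalois F K]

theorem isClosed_stab (x : K) : IsClosed {g : K ≃ₐ[F] K | g • x = x} := by
  have : FiniteDimensional F (IntermediateField.adjoin F {x}) :=
    IntermediateField.adjoin.finiteDimensional (Algebra.IsIntegral.isIntegral x)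
  have h := IntermediateField.fixingSubgroup_isClosed (IntermediateField.adjoin F {x})
  convert h using 1
  ext g
  simp only [Set.mem_ofPred_eq, SetLike.mem_coe, IntermediateField.mem_fixingSubgroup_iff]
  constructor
  · intro hg y hy
    have h1 : IntermediateField.adjoin F {x} ≤
        IntermediateField.fixedField (Subgroup.zpowers g) := by
      rw [IntermediateField.adjoin_simple_le_iff]
      rintro ⟨h, hh⟩
      have h2 : g ∈ MulAction.stabilizer (K ≃ₐ[F] K) x := hg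
      exact (Subgroup.zpowers_le.2 h2) hh
    exact h1 hy ⟨g, Subgroup.mem_zpowers g⟩
  · intro hg
    exact hg x (IntermediateField.mem_adjoin_simple_self F x)

/-- elements fixed by a generator of `ℤ_2` are fixed -/
theorem fx_of_gen {H : Subgroup (K ≃ₐ[F] K)} (e : H ≃ₜ* Multiplicative (PadicInt 2)) (x : K)
    (hx : ((e.symm (Multiplicative.ofAdd 1) : H) : K ≃ₐ[F] K) • x = x) : Fx H x := by
  intro u hu
  have hd : DenseRange (Nat.cast : ℕ → PadicInt 2) := PadicInt.denseRange_natCast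
  have hc : Continuous fun z : PadicInt 2 =>
      ((e.symm (Multiplicative.ofAdd z) : H) : K ≃ₐ[F] K) :=
    continuous_subtype_val.comp (e.symm.continuous.comp continuous_ofAdd)
  have hcl : IsClosed {z : PadicInt 2 |
      ((e.symm (Multiplicative.ofAdd z) : H) : K ≃ₐ[F] K) • x = x} :=
    (isClosed_stab x).preimage hc
  have h1 : ∀ z : PadicInt 2, ((e.symm (Multiplicative.ofAdd z) : H) : K ≃ₐ[F] K) • x = x := by
    intro z
    refine hd.induction_on (p := fun z : PadicInt 2 =>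
      ((e.symm (Multiplicative.ofAdd z) : H) : K ≃ₐ[F] K) • x = x) z hcl ?_
    intro n
    induction n with
    | zero =>
      rw [Nat.cast_zero, ofAdd_zero, map_one, Subgroup.coe_one, one_smul]
    | succ n ih =>
      rw [Nat.cast_add, Nat.cast_one, ofAdd_add, map_mul, Subgroup.coe_mul, mul_smul, hx, ih]
  have h2 := h1 (e ⟨u, hu⟩).toAdd
  rw [ofAdd_toAdd, ContinuousMulEquiv.symm_apply_apply] at h2
  exact h2

/-- an element fixed by `σ ^ 4` but not by `σ ^ 2` -/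
theorem exists_four {H : Subgroup (K ≃ₐ[F] K)} (hH : IsClosed (H : Set (K ≃ₐ[F] K)))
    (e : H ≃ₜ* Multiplicative (PadicInt 2)) (σ : K ≃ₐ[F] K)
    (hσ : σ = ((e.symm (Multiplicative.ofAdd 1) : H) : K ≃ₐ[F] K)) :
    ∃ x : K, σ ^ 4 • x = x ∧ σ ^ 2 • x ≠ x := by
  let χ : H →* Multiplicative (ZMod (2 ^ 2)) :=
    (AddMonoidHom.toMultiplicative (PadicInt.toZModPow (p := 2) 2).toAddMonoidHom).comp
      (e.toMulEquiv.toMonoidHom)
  have hχ : ∀ h : H, χ h = Multiplicative.ofAdd (PadicInt.toZModPow (p := 2) 2 (e h).toAdd) :=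
    fun h => rfl
  have hcl : IsClosed (χ.ker : Set H) := by
    have h1 : (χ.ker : Set H) = {h : H | ‖(e h).toAdd‖ ≤ ((2 : ℕ) : ℝ) ^ (-((2 : ℕ) : ℤ))} := by
      ext h
      rw [SetLike.mem_coe, MonoidHom.mem_ker, hχ, ofAdd_eq_one, ← RingHom.mem_ker,
        PadicInt.ker_toZModPow, Set.mem_ofPred_eq, PadicInt.norm_le_pow_iff_mem_span_pow]
    rw [h1]
    exact isClosed_le (continuous_norm.comp (continuous_toAdd.comp e.continuous)) continuous_const
  let T : Subgroup (K ≃ₐ[F] K) := χ.ker.map H.subtype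
  have hT : IsClosed (T : Set (K ≃ₐ[F] K)) := by
    have h1 : (T : Set (K ≃ₐ[F] K)) = Subtype.val '' (χ.ker : Set H) := rfl
    rw [h1]
    exact hH.isClosedEmbedding_subtypeVal.isClosedMap _ hcl
  let TT : ClosedSubgroup (K ≃ₐ[F] K) := ⟨T, hT⟩
  have hσe : ∀ n : ℕ, σ ^ n = ((e.symm (Multiplicative.ofAdd (n : PadicInt 2)) : H) : K ≃ₐ[F] K) := by
    intro n
    rw [hσ, ← Subgroup.coe_pow, ← map_pow, ← ofAdd_nsmul, nsmul_one]
  have h4 : σ ^ 4 ∈ T := by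
    refine ⟨e.symm (Multiplicative.ofAdd ((4 : ℕ) : PadicInt 2)), ?_, (hσe 4).symm⟩
    rw [SetLike.mem_coe, MonoidHom.mem_ker, hχ, ContinuousMulEquiv.apply_symm_apply, toAdd_ofAdd,
      map_natCast, ofAdd_eq_one]
    decide
  have h2 : σ ^ 2 ∉ T := by
    rintro ⟨h, hh, hh2⟩
    have h3 : h = e.symm (Multiplicative.ofAdd ((2 : ℕ) : PadicInt 2)) := by
      apply Subtype.ext
      rw [← hσe 2]
      exact hh2
    rw [SetLike.mem_coe, MonoidHom.mem_ker, hχ, h3, ContinuousMulEquiv.apply_symm_apply, toAdd_ofAdd,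
      map_natCast, ofAdd_eq_one] at hh
    revert hh
    decide
  by_contra hcon
  push Not at hcon
  apply h2
  have h5 := InfiniteGalois.fixingSubgroup_fixedField (k := F) (K := K) TT
  have h6 : σ ^ 2 ∈ (IntermediateField.fixedField (TT.toSubgroup)).fixingSubgroup := by
    rw [IntermediateField.mem_fixingSubgroup_iff]
    intro x hx
    apply hcon x
    exact hx ⟨σ ^ 4, h4⟩
  rw [h5] at h6
  exact h6

theorem c4 (h2 : (2 : K) ≠ 0) (H : Subgroup (K ≃ₐ[F] K)) (hH : IsClosed (H : Set (K ≃ₐ[F] K)))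
    (he : Nonempty (H ≃ₜ* Multiplicative (PadicInt 2))) (α β : K) (hα : α ≠ 0) (hβ : β ≠ 0)
    (hα2 : Fx H (α ^ 2)) (hβ2 : Fx H (β ^ 2)) :
    ∃ r t : K, Fx H r ∧ Fx H t ∧ β ^ 2 = r ^ 2 - α ^ 2 * t ^ 2 := by
  obtain ⟨e⟩ := he
  obtain ⟨σ, hσ⟩ : ∃ σ : K ≃ₐ[F] K, σ = ((e.symm (Multiplicative.ofAdd 1) : H) : K ≃ₐ[F] K) :=
    ⟨_, rfl⟩
  have hσH : σ ∈ H := by
    rw [hσ]
    exact SetLike.coe_mem _
  have hgen : ∀ x : K, σ • x = x → Fx H x := fun x hx => fx_of_gen e x (by rwa [← hσ])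
  have hsq : ∀ x : K, Fx H (x ^ 2) → σ • x = x ∨ σ • x = -x := by
    intro x hx
    have h1 := hx σ hσH
    rw [smul_pow'] at h1
    exact sq_eq_sq_iff_eq_or_eq_neg.1 h1
  rcases hsq β hβ2 with hb | hb
  · refine ⟨β, 0, hgen β hb, fun u _ => smul_zero u, by ring⟩
  rcases hsq α hα2 with ha | ha
  · have hσβ2 : σ • (β ^ 2) = β ^ 2 := hβ2 σ hσH
    have hσ2 : σ • (2 : K) = 2 := by
      rw [AlgEquiv.smul_def]
      exact map_ofNat σ 2
    refine ⟨(β ^ 2 + 1) / 2, (β ^ 2 - 1) / (2 * α), hgen _ ?_, hgen _ ?_, ?_⟩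
    · rw [smul_div₀', smul_add, smul_one, hσβ2, hσ2]
    · rw [smul_div₀', smul_sub, smul_mul', smul_one, hσβ2, hσ2, ha]
    · field_simp
      ring
  -- both are moved
  obtain ⟨x, hx4, hx2⟩ := exists_four hH e σ hσ
  obtain ⟨γ, hγ⟩ : ∃ γ : K, γ = x - σ ^ 2 • x := ⟨_, rfl⟩
  have hγ0 : γ ≠ 0 := by
    rw [hγ]
    exact sub_ne_zero.2 (Ne.symm hx2)
  have hγ2 : σ • σ • γ = -γ := by
    have h1 : σ • σ • γ = σ ^ 2 • γ := by rw [pow_two, mul_smul]
    rw [h1, hγ, smul_sub, ← mul_smul, ← pow_add, hx4]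
    ring
  obtain ⟨θ, hθ⟩ : ∃ θ : K, θ = σ • γ / γ := ⟨_, rfl⟩
  have hσγ0 : σ • γ ≠ 0 := by
    rw [Ne, smul_eq_zero_iff_eq]
    exact hγ0
  have hσθ : σ • θ = -γ / (σ • γ) := by rw [hθ, smul_div₀', hγ2]
  have hnorm : θ * σ • θ = -1 := by
    rw [hσθ, hθ]
    field_simp
  have hσσθ : σ • σ • θ = θ := by
    rw [hσθ, smul_div₀', smul_neg, hγ2, hθ, neg_div_neg_eq]
  have hσ2 : σ • (2 : K) = 2 := by
    rw [AlgEquiv.smul_def]
    exact map_ofNat σ 2
  obtain ⟨r0, hr0⟩ : ∃ r0 : K, r0 = (θ + σ • θ) / 2 := ⟨_, rfl⟩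
  obtain ⟨t0, ht0⟩ : ∃ t0 : K, t0 = (θ - σ • θ) / (2 * α) := ⟨_, rfl⟩
  have hr0f : σ • r0 = r0 := by
    rw [hr0, smul_div₀', smul_add, hσσθ, hσ2, add_comm]
  have ht0f : σ • t0 = t0 := by
    rw [ht0, smul_div₀', smul_sub, hσσθ, smul_mul', hσ2, ha]
    have : (2 : K) * -α = -(2 * α) := by ring
    rw [this, ← neg_sub (θ) (σ • θ), neg_div_neg_eq]
  have hn : r0 ^ 2 - α ^ 2 * t0 ^ 2 = -1 := by
    rw [← hnorm, hr0, ht0]
    field_simp
    ring
  obtain ⟨c, hc⟩ : ∃ c : K, c = β / α := ⟨_, rfl⟩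
  have hcf : σ • c = c := by rw [hc, smul_div₀', hb, ha, neg_div_neg_eq]
  have hα2σ : σ • (α ^ 2) = α ^ 2 := hα2 σ hσH
  refine ⟨t0 * α ^ 2 * c, r0 * c, hgen _ ?_, hgen _ ?_, ?_⟩
  · rw [smul_mul', smul_mul', ht0f, hα2σ, hcf]
  · rw [smul_mul', hr0f, hcf]
  · have hβc : β = c * α := by
      rw [hc]
      field_simp
    rw [hβc]
    have : (c * α) ^ 2 = c ^ 2 * α ^ 2 * (-(r0 ^ 2 - α ^ 2 * t0 ^ 2)) := by
      rw [hn]
      ring
    rw [this]
    ring

end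

end Pool.Agent.V7H50.FP
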