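import Pool.Agent.V7H55.FP.Defs4
import Pool.Agent.V7H50.FP.C4G

set_option autoImplicit false

/-!
# Groups isomorphic to `ℤ_2`: the piece C4
-/

namespace Pool.Agent.V7H50.FP

open Pool.Agent.V7H55.FP

theorem t_C4 : S_C4 := by
  intro F K _ _ _ _ h2 _ H hH he α β hα hβ hα2 hβ2
  exact c4 h2 H hH he α β hα hβ hα2 hβ2

end Pool.Agent.V7H50.FP
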