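import Mathlib

set_option autoImplicit false

/-!
# The closed subgroup generated by an element of infinite order of a pro-2 group
-/

namespace Pool.Agent.V7H50.FP

open Filter Topology

section

variable {G : Type} [Group G] [TopologicalSpace G] [IsTopologicalGroup G] [CompactSpace G]
  [TotallyDisconnectedSpace G]


omit [TopologicalSpace G] [IsTopologicalGroup G] [CompactSpace G] [TotallyDisconnectedSpace G] in
/-- congruent exponents give the same class -/
theorem pow_mem {V : Subgroup G} (hV : V.Normal) {k : ℕ} (hk : V.index = 2 ^ k) (σ : G) {m n : ℕ}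
    (h : (m : ZMod (2 ^ k)) = n) : (σ ^ m)⁻¹ * σ ^ n ∈ V := by
  rw [ZMod.natCast_eq_natCast_iff] at h
  rw [← QuotientGroup.eq]
  have h1 : orderOf (σ : G ⧸ V) ∣ 2 ^ k := by
    rw [← hk]
    exact orderOf_dvd_natCard _
  have h2 : (σ : G ⧸ V) ^ m = (σ : G ⧸ V) ^ n := pow_eq_pow_iff_modEq.2 (h.of_dvd h1)
  simpa using h2

/-- the exponent -/
noncomputable def ex (z : PadicInt 2) (k : ℕ) : ℕ := (PadicInt.toZModPow k z).val

theorem ex_cast (z : PadicInt 2) (k : ℕ) : ((ex z k : ℕ) : ZMod (2 ^ k)) = PadicInt.toZModPow k z := by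
  have : NeZero (2 ^ k) := ⟨by positivity⟩
  exact ZMod.natCast_zmod_val _

theorem ex_cast_le (z : PadicInt 2) {k l : ℕ} (h : k ≤ l) :
    ((ex z l : ℕ) : ZMod (2 ^ k)) = PadicInt.toZModPow k z := by
  have h1 := congrArg (ZMod.castHom (pow_dvd_pow 2 h) (ZMod (2 ^ k))) (ex_cast z l)
  rw [map_natCast] at h1
  rw [h1]
  have := PadicInt.zmod_cast_comp_toZModPow (p := 2) k l h
  exact congrArg (fun f => f z) this

/-- `g` is the power of `σ` with the exponent `z` -/
def IsPw (σ : G) (z : PadicInt 2) (g : G) : Prop :=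
  ∀ V : Subgroup G, V.Normal → IsOpen (V : Set G) → ∀ k : ℕ, V.index = 2 ^ k →
    (σ ^ ex z k)⁻¹ * g ∈ V

theorem exists_pw (σ : G) (z : PadicInt 2) : ∃ g, IsPw σ z g := by
  obtain ⟨g, hg⟩ := exists_clusterPt_of_compactSpace (Filter.map (fun k => σ ^ ex z k) atTop)
  refine ⟨g, fun V hV ho k hk => ?_⟩
  have hc : IsClosed (V : Set G) := Subgroup.isClosed_of_isOpen V ho
  have hc2 : IsClosed {x : G | (σ ^ ex z k)⁻¹ * x ∈ V} :=
    hc.preimage (continuous_const.mul continuous_id)
  have h1 : {x : G | (σ ^ ex z k)⁻¹ * x ∈ V} ∈ Filter.map (fun k => σ ^ ex z k) atTop := by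
    rw [Filter.mem_map]
    filter_upwards [eventually_ge_atTop k] with l hl
    exact pow_mem hV hk σ ((ex_cast z k).trans (ex_cast_le z hl).symm)
  have h2 : ClusterPt g (𝓟 {x : G | (σ ^ ex z k)⁻¹ * x ∈ V}) := hg.mono (le_principal_iff.2 h1)
  exact (mem_closure_iff_clusterPt.2 h2 |> fun h => by rwa [hc2.closure_eq] at h)

theorem eq_one_of_mem {g : G} (h : ∀ V : Subgroup G, V.Normal → IsOpen (V : Set G) → g ∈ V) :
    g = 1 := by
  by_contra hg
  obtain ⟨V, hV⟩ := ProfiniteGrp.exist_openNormalSubgroup_sub_open_nhds_of_one (G := G) (U := {g}ᶜ)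
    isOpen_compl_singleton (by simpa using fun h => hg h.symm)
  exact hV (h V.toSubgroup V.isNormal' V.isOpen') rfl

/-- all open normal subgroups have index a power of two -/
def P2 (G : Type) [Group G] [TopologicalSpace G] : Prop :=
  ∀ V : Subgroup G, V.Normal → IsOpen (V : Set G) → ∃ k : ℕ, V.index = 2 ^ k

theorem pw_unique (hP : P2 G) {σ : G} {z : PadicInt 2} {g h : G} (hg : IsPw σ z g) (hh : IsPw σ z h) :
    g = h := by
  have : g⁻¹ * h = 1 := by
    apply eq_one_of_mem
    intro V hV ho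
    obtain ⟨k, hk⟩ := hP V hV ho
    have h1 := hg V hV ho k hk
    have h2 := hh V hV ho k hk
    have h3 := V.mul_mem (V.inv_mem h1) h2
    simpa [mul_assoc] using h3
  rwa [inv_mul_eq_one] at this

theorem pw_add {σ : G} {z w : PadicInt 2} {g h : G} (hg : IsPw σ z g) (hh : IsPw σ w h) :
    IsPw σ (z + w) (g * h) := by
  intro V hV ho k hk
  have h1 := hg V hV ho k hk
  have h2 := hh V hV ho k hk
  rw [← QuotientGroup.eq] at h1 h2 ⊢
  have h3 : (σ ^ ex (z + w) k)⁻¹ * σ ^ (ex z k + ex w k) ∈ V := by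
    apply pow_mem hV hk
    rw [ex_cast, map_add, Nat.cast_add, ex_cast, ex_cast]
  rw [← QuotientGroup.eq] at h3
  rw [h3, pow_add]
  simp only [QuotientGroup.mk_mul]
  rw [h1, h2]

/-- the power with a 2-adic exponent -/
noncomputable def pw (σ : G) (z : PadicInt 2) : G := (exists_pw σ z).choose

theorem pw_spec (σ : G) (z : PadicInt 2) : IsPw σ z (pw σ z) := (exists_pw σ z).choose_spec

theorem pw_add' (hP : P2 G) (σ : G) (z w : PadicInt 2) : pw σ (z + w) = pw σ z * pw σ w :=
  pw_unique hP (pw_spec σ _) (pw_add (pw_spec σ z) (pw_spec σ w))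

theorem pw_one (hP : P2 G) (σ : G) : pw σ 1 = σ := by
  apply pw_unique hP (pw_spec σ _)
  intro V hV ho k hk
  have := pow_mem hV hk σ (m := ex 1 k) (n := 1) (by rw [ex_cast, map_one, Nat.cast_one])
  simpa using this

/-- the homomorphism -/
noncomputable def pwHom (hP : P2 G) (σ : G) : Multiplicative (PadicInt 2) →* G :=
  MonoidHom.mk' (fun z => pw σ z.toAdd) fun z w => by
    rw [toAdd_mul]
    exact pw_add' hP σ _ _

theorem pwHom_apply (hP : P2 G) (σ : G) (z : Multiplicative (PadicInt 2)) :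
    pwHom hP σ z = pw σ z.toAdd := rfl

theorem continuous_pwHom (hP : P2 G) (σ : G) : Continuous (pwHom hP σ) := by
  apply continuous_of_continuousAt_one
  rw [ContinuousAt, map_one]
  intro U hU
  obtain ⟨U', hU'U, hU'o, h1⟩ := mem_nhds_iff.1 hU
  obtain ⟨V, hV⟩ := ProfiniteGrp.exist_openNormalSubgroup_sub_open_nhds_of_one (G := G) hU'o h1
  obtain ⟨k, hk⟩ := hP V.toSubgroup V.isNormal' V.isOpen'
  rw [Filter.mem_map]
  have h2 : IsOpen {z : Multiplicative (PadicInt 2) | ‖z.toAdd‖ < (2 : ℝ) ^ (-(k : ℤ) + 1)} :=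
    isOpen_lt (continuous_norm.comp continuous_toAdd) continuous_const
  refine mem_of_superset (h2.mem_nhds ?_) ?_
  · change ‖(1 : Multiplicative (PadicInt 2)).toAdd‖ < _
    rw [toAdd_one, norm_zero]
    positivity
  · intro z hz
    apply hU'U
    apply hV
    have h3 := pw_spec σ z.toAdd V.toSubgroup V.isNormal' V.isOpen' k hk
    have h4 : PadicInt.toZModPow k z.toAdd = 0 := by
      rw [← RingHom.mem_ker, PadicInt.ker_toZModPow]
      have h5 : ‖z.toAdd‖ ≤ ((2 : ℕ) : ℝ) ^ (-(k : ℤ)) := by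
        rw [PadicInt.norm_le_pow_iff_norm_lt_pow_add_one]
        exact_mod_cast hz
      exact_mod_cast (PadicInt.norm_le_pow_iff_mem_span_pow _ k).1 h5
    have h5 : ex z.toAdd k = 0 := by
      unfold ex
      rw [h4, ZMod.val_zero]
    rw [h5, pow_zero, inv_one, one_mul] at h3
    exact h3

theorem pw_natCast (hP : P2 G) (σ : G) (n : ℕ) : pw σ (n : PadicInt 2) = σ ^ n := by
  induction n with
  | zero =>
    rw [Nat.cast_zero, pow_zero]
    have := pw_add' hP σ 0 0
    rw [add_zero] at this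
    simpa using this
  | succ n ih => rw [Nat.cast_add, Nat.cast_one, pw_add' hP, ih, pw_one hP, pow_succ]

theorem pwHom_injective (hP : P2 G) (σ : G) (hσ : ∀ n : ℕ, 0 < n → σ ^ n ≠ 1) :
    Function.Injective (pwHom hP σ) := by
  rw [injective_iff_map_eq_one]
  intro z hz
  by_contra hne
  have hz0 : z.toAdd ≠ 0 := fun h => hne (by rw [← toAdd_eq_zero]; exact h)
  -- multiples
  have hmul : ∀ w : PadicInt 2, pw σ (z.toAdd * w) = 1 := by
    have hc : Continuous fun w : PadicInt 2 => pw σ (z.toAdd * w) := by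
      have h1 : Continuous fun w : PadicInt 2 => pwHom hP σ (Multiplicative.ofAdd (z.toAdd * w)) :=
        (continuous_pwHom hP σ).comp (continuous_ofAdd.comp (continuous_const.mul continuous_id))
      exact h1
    have hcl : IsClosed {w : PadicInt 2 | pw σ (z.toAdd * w) = 1} :=
      isClosed_singleton.preimage hc
    intro w
    have hd : DenseRange (Nat.cast : ℕ → PadicInt 2) := PadicInt.denseRange_natCast
    refine hd.induction_on (p := fun w => pw σ (z.toAdd * w) = 1) w hcl ?_
    intro n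
    have h1 : pw σ (z.toAdd * (n : PadicInt 2)) = pwHom hP σ (z ^ n) := by
      rw [pwHom_apply, toAdd_pow, nsmul_eq_mul, mul_comm]
    rw [h1, map_pow, hz, one_pow]
  have h1 := hmul (((PadicInt.unitCoeff hz0)⁻¹ : (PadicInt 2)ˣ) : PadicInt 2)
  have h2 : z.toAdd * (((PadicInt.unitCoeff hz0)⁻¹ : (PadicInt 2)ˣ) : PadicInt 2) =
      ((2 ^ (z.toAdd).valuation : ℕ) : PadicInt 2) := by
    have h3 := PadicInt.unitCoeff_spec hz0
    calc z.toAdd * (((PadicInt.unitCoeff hz0)⁻¹ : (PadicInt 2)ˣ) : PadicInt 2)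
        = ((PadicInt.unitCoeff hz0 : PadicInt 2) * ((2 : ℕ) : PadicInt 2) ^ (z.toAdd).valuation) *
          (((PadicInt.unitCoeff hz0)⁻¹ : (PadicInt 2)ˣ) : PadicInt 2) := by
          congr 1
      _ = ((2 ^ (z.toAdd).valuation : ℕ) : PadicInt 2) := by
          rw [mul_right_comm]
          simp
  rw [h2, pw_natCast hP] at h1
  exact hσ _ (by positivity) h1

theorem range_pwHom (hP : P2 G) (σ : G) :
    (pwHom hP σ).range = (Subgroup.zpowers σ).topologicalClosure := by
  have hc := continuous_pwHom hP σ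
  apply le_antisymm
  · rintro _ ⟨z, rfl⟩
    have hd : DenseRange (Nat.cast : ℕ → PadicInt 2) := PadicInt.denseRange_natCast
    have hcl : IsClosed {w : PadicInt 2 | pw σ w ∈ (Subgroup.zpowers σ).topologicalClosure} := by
      have h1 : Continuous fun w : PadicInt 2 => pwHom hP σ (Multiplicative.ofAdd w) :=
        hc.comp continuous_ofAdd
      exact (Subgroup.isClosed_topologicalClosure _).preimage h1
    refine hd.induction_on (p := fun w => pw σ w ∈ (Subgroup.zpowers σ).topologicalClosure)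
      z.toAdd hcl ?_
    intro n
    rw [pw_natCast hP]
    exact Subgroup.le_topologicalClosure _ (Subgroup.pow_mem _ (Subgroup.mem_zpowers σ) n)
  · apply Subgroup.topologicalClosure_minimal
    · rw [Subgroup.zpowers_le]
      exact ⟨Multiplicative.ofAdd 1, pw_one hP σ⟩
    · have h1 : IsCompact (Set.range (pwHom hP σ)) := by
        have : CompactSpace (Multiplicative (PadicInt 2)) := inferInstanceAs (CompactSpace (PadicInt 2))
        exact isCompact_range hc
      exact h1.isClosed

/-- an element of infinite order of a pro-2 group generates `ℤ_2` -/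
theorem zp (hP : P2 G) (σ : G) (hσ : ∀ n : ℕ, 0 < n → σ ^ n ≠ 1) :
    Nonempty ((Subgroup.zpowers σ).topologicalClosure ≃ₜ* Multiplicative (PadicInt 2)) := by
  have : CompactSpace (Multiplicative (PadicInt 2)) := inferInstanceAs (CompactSpace (PadicInt 2))
  let f : Multiplicative (PadicInt 2) →* (Subgroup.zpowers σ).topologicalClosure :=
    (pwHom hP σ).codRestrict _ fun z => by
      rw [← range_pwHom hP σ]
      exact ⟨z, rfl⟩
  have hf : Continuous f := (continuous_pwHom hP σ).subtype_mk _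
  have hbij : Function.Bijective f := by
    constructor
    · intro z w h
      exact pwHom_injective hP σ hσ (congrArg Subtype.val h)
    · rintro ⟨g, hg⟩
      rw [← range_pwHom hP σ] at hg
      obtain ⟨z, hz⟩ := hg
      exact ⟨z, Subtype.ext hz⟩
  let e := MulEquiv.ofBijective f hbij
  have he : Continuous e := hf
  have hs : Continuous e.symm := Continuous.continuous_symm_of_equiv_compact_to_t2 (f := e.toEquiv) he
  exact ⟨{ e.symm with continuous_toFun := hs, continuous_invFun := he }⟩

end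

end Pool.Agent.V7H50.FP
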