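import Pool.Agent.V7H55.FP.Defs2
import Pool.Agent.V7H50.FP.ZPG

set_option autoImplicit false

/-!
# An element of infinite order of a pro-2 Galois group generates `ℤ_2`
-/

namespace Pool.Agent.V7H50.FP

open Pool.Agent.V7H55.FP

theorem t_ZP : S_ZP := by
  intro F K _ _ _ _ hP σ hσ
  exact zp (G := K ≃ₐ[F] K) (fun V hV ho => hP V hV ho) σ hσ

end Pool.Agent.V7H50.FP
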